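import Mathlib
import Pool.Agent.Helper93.Lip0
import Pool.Agent.Helper93.Final

/-!
# Complemented copies of `Lip₀(ℓ₂)` in `Lip₀(X)`

For every infinite-dimensional real normed space `X` and every separable real Hilbert space `H`
(for instance `H = ℓ₂`), the space `Lip₀(H)` is linearly isomorphic to a complemented subspace
of `Lip₀(X)`.

Outline of the proof.
* For a subgroup `K` of `X` and `g ∈ Lip₀(X)` put `P g (x) = M_{z ∈ K} [g (x + z) - g z]` with an
  invariant mean `M` on `K`, let `H g` be the linearisation of `P g` given by an invariant mean on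
  `X`, and `R g = P g - H g`.  Then `R g` is `K`-periodic, `‖R g‖ ≤ 2 ‖g‖`, and `R g = g` for
  bounded `K`-periodic `g` (file `Periodic`).
* Dvoretzky's theorem in the dual of `X` gives linear surjections `Q m : X → ℓ₂^m` with `‖Q m‖ ≤ 5`
  whose quotient norms are at most the Euclidean norm (files `DR`, `ES`, `Rand`, `LargeMean`,
  `Dvoretzky`, `Quot`).
* For `f ∈ Lip₀(H)` cut off `f` at radius `2^m`, compose with `Q m` and glue copies of the
  resulting functions in disjoint balls of `X`; the operator `R` with `K = ker (Q m)` and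
  ultrafilter limits recover `f` (files `Glue`, `Transfer`, `Final`).
-/

set_option autoImplicit false

namespace Pool.Agent.Results.MP_b215b5_an.Main

open Pool.Agent.Helper93

/-- `Y` is linearly isomorphic to a complemented subspace of `Z`: there is a bounded linear
projection `P` on `Z` whose range is linearly homeomorphic to `Y`. -/
def IsoComplemented (Y Z : Type*) [NormedAddCommGroup Y] [NormedSpace ℝ Y]
    [NormedAddCommGroup Z] [NormedSpace ℝ Z] : Prop :=
  ∃ P : Z →L[ℝ] Z, P.comp P = P ∧ Nonempty (Y ≃L[ℝ] LinearMap.range (P : Z →ₗ[ℝ] Z))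

/-- For every infinite-dimensional real normed space `X` and every separable real Hilbert space
`H`, the space `Lip₀(H)` is linearly isomorphic to a complemented subspace of `Lip₀(X)`. -/
theorem result (X : Type*) [NormedAddCommGroup X] [NormedSpace ℝ X]
    (hX : ¬ FiniteDimensional ℝ X)
    (H : Type*) [NormedAddCommGroup H] [InnerProductSpace ℝ H] [CompleteSpace H]
    [TopologicalSpace.SeparableSpace H] :
    IsoComplemented (Lip0 H) (Lip0 X) := by
  obtain ⟨T, S, hST⟩ := main_operators X hX H
  refine ⟨T.comp S, ?_, ?_⟩
  · ext1 g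
    simp only [ContinuousLinearMap.comp_apply, hST]
  · refine ⟨ContinuousLinearEquiv.equivOfInverse
      (T.codRestrict (LinearMap.range ((T.comp S : Lip0 X →L[ℝ] Lip0 X) : Lip0 X →ₗ[ℝ] Lip0 X))
        (fun f => ⟨T f, ?_⟩))
      (S.comp (LinearMap.range ((T.comp S : Lip0 X →L[ℝ] Lip0 X) : Lip0 X →ₗ[ℝ] Lip0 X)).subtypeL)
      ?_ ?_⟩
    · change T (S (T f)) = T f
      rw [hST]
    · intro f
      change S (T f) = f
      exact hST f
    · rintro ⟨g, g', rfl⟩
      apply Subtype.ext
      change T (S (T (S g'))) = T (S g')
      rw [hST]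

end Pool.Agent.Results.MP_b215b5_an.Main
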